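import Pool.Agent.H970_Mobius.Exp

set_option autoImplicit false

/-!
# The number of exceptional exponents
-/

namespace Pool.Agent.H970_Mobius

open IntermediateField Polynomial

/-- The nonzero algebraic numbers `α` such that the numbers `t ^ i * (e ^ α) ^ j` with `i ≤ m` and
`j ≤ n` are linearly dependent over the algebraic numbers; in other words `P (t, e ^ α) = 0` for a
nonzero polynomial `P` with algebraic coefficients, of degree at most `m` in the first variable and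
at most `n` in the second one. -/
def exc (t : ℂ) (m n : ℕ) : Set ℂ :=
  {α | IsAlgebraic ℚ α ∧ α ≠ 0 ∧ PolyRel (algebraicClosure ℚ ℂ) m n t (Complex.exp α)}

/-- the pairs of coprime integers `u`, `v` with `1 ≤ u ≤ m` and `1 ≤ v ≤ n` -/
def coprimePairs (m n : ℕ) : Finset (ℕ × ℕ) :=
  (Finset.Icc 1 m ×ˢ Finset.Icc 1 n).filter fun p => Nat.Coprime p.1 p.2

/-- the reduced quotient of the degrees -/
noncomputable def quo (t α : ℂ) : ℕ × ℕ :=
  (dT QB t (Complex.exp α) / Nat.gcd (dT QB t (Complex.exp α)) (dY QB t (Complex.exp α)),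
    dY QB t (Complex.exp α) / Nat.gcd (dT QB t (Complex.exp α)) (dY QB t (Complex.exp α)))

theorem quo_mem {t : ℂ} (ht : Transcendental ℚ t) {m n : ℕ} {α : ℂ} (h : α ∈ exc t m n) :
    quo t α ∈ coprimePairs m n := by
  obtain ⟨ha, h0, hr⟩ := h
  have b1 := dT_bounds (transc_QB (transc_exp ha h0)) hr
  have b2 := dY_bounds (transc_QB ht) hr
  set a := dT QB t (Complex.exp α) with ha'
  set b := dY QB t (Complex.exp α) with hb'
  have g : 0 < Nat.gcd a b := Nat.gcd_pos_of_pos_left _ b1.1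
  unfold coprimePairs quo
  rw [Finset.mem_filter, Finset.mem_product, Finset.mem_Icc, Finset.mem_Icc]
  rw [← ha', ← hb']
  refine ⟨⟨⟨?_, ?_⟩, ?_, ?_⟩, Nat.coprime_div_gcd_div_gcd g⟩
  · exact Nat.div_pos (Nat.le_of_dvd b1.1 (Nat.gcd_dvd_left a b)) g
  · exact (Nat.div_le_self _ _).trans b1.2
  · exact Nat.div_pos (Nat.le_of_dvd b2.1 (Nat.gcd_dvd_right a b)) g
  · exact (Nat.div_le_self _ _).trans b2.2

theorem cross_of_quo {a b a' b' : ℕ}
    (h1 : a / Nat.gcd a b = a' / Nat.gcd a' b') (h2 : b / Nat.gcd a b = b' / Nat.gcd a' b') :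
    a * b' = a' * b := by
  have e1 := Nat.div_mul_cancel (Nat.gcd_dvd_left a b)
  have e2 := Nat.div_mul_cancel (Nat.gcd_dvd_right a b)
  have e3 := Nat.div_mul_cancel (Nat.gcd_dvd_left a' b')
  have e4 := Nat.div_mul_cancel (Nat.gcd_dvd_right a' b')
  rw [h1] at e1
  rw [h2] at e2
  calc a * b' = (a' / Nat.gcd a' b' * Nat.gcd a b) * (b' / Nat.gcd a' b' * Nat.gcd a' b') := by
        rw [e1, e4]
    _ = (a' / Nat.gcd a' b' * Nat.gcd a' b') * (b' / Nat.gcd a' b' * Nat.gcd a b) := by ring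
    _ = a' * b := by rw [e3, e2]

theorem quo_fiber {t : ℂ} (ht : Transcendental ℚ t) {m n m' n' : ℕ} {α β : ℂ}
    (h : α ∈ exc t m n) (h' : β ∈ exc t m' n') (hq : quo t α = quo t β) : α = β ∨ α = -β := by
  obtain ⟨ha, h0, hr⟩ := h
  obtain ⟨ha', h0', hr'⟩ := h'
  unfold quo at hq
  rw [Prod.mk.injEq] at hq
  exact eq_or_neg ht ha ha' h0 h0' hr hr' (cross_of_quo hq.1 hq.2)

open Classical in
/-- a finite set that contains the exceptional exponents -/
theorem exc_bound {t : ℂ} (ht : Transcendental ℚ t) (m n : ℕ) :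
    (exc t m n).Finite ∧ (exc t m n).ncard ≤ 2 * (coprimePairs m n).card := by
  let T : Finset ℂ := (coprimePairs m n).biUnion fun c =>
    if h : ∃ α ∈ exc t m n, quo t α = c then {h.choose, -h.choose} else ∅
  have hsub : exc t m n ⊆ (T : Set ℂ) := by
    intro α hα
    rw [Finset.mem_coe, Finset.mem_biUnion]
    refine ⟨quo t α, quo_mem ht hα, ?_⟩
    have h : ∃ β ∈ exc t m n, quo t β = quo t α := ⟨α, hα, rfl⟩
    rw [dif_pos h, Finset.mem_insert, Finset.mem_singleton]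
    exact quo_fiber ht hα h.choose_spec.1 h.choose_spec.2.symm
  have hcard : T.card ≤ 2 * (coprimePairs m n).card := by
    refine Finset.card_biUnion_le.trans ?_
    rw [mul_comm]
    refine Finset.sum_le_card_nsmul _ _ 2 fun c _ => ?_
    split_ifs
    · exact Finset.card_le_two
    · simp
  refine ⟨T.finite_toSet.subset hsub, ?_⟩
  refine (Set.ncard_le_ncard hsub T.finite_toSet).trans ?_
  rw [Set.ncard_coe_finset]
  exact hcard

/-! ### Sharpness -/

theorem rel_of_eq {F E : Type*} [Field F] [Field E] [Algebra F E] {t y : E} {m n : ℕ}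
    (p q : Fin (m + 1) × Fin (n + 1)) (hpq : p ≠ q)
    (h : t ^ (p.1 : ℕ) * y ^ (p.2 : ℕ) = t ^ (q.1 : ℕ) * y ^ (q.2 : ℕ)) : PolyRel F m n t y := by
  intro hl
  exact hpq (hl.injective h)

/-- the exponent `± u / v` -/
noncomputable def ex (p : Bool × ℕ × ℕ) : ℂ :=
  if p.1 then (p.2.1 : ℂ) / p.2.2 else -((p.2.1 : ℂ) / p.2.2)

theorem alg_ex (p : Bool × ℕ × ℕ) : IsAlgebraic ℚ (ex p) := by
  have h : IsAlgebraic ℚ ((p.2.1 : ℂ) / p.2.2) := by
    have h1 : ((p.2.1 : ℂ) / p.2.2) = algebraMap ℚ ℂ ((p.2.1 : ℚ) / p.2.2) := by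
      simp
    rw [h1]
    exact isAlgebraic_algebraMap _
  unfold ex
  split_ifs
  · exact h
  · exact h.neg

theorem ex_mem {m n : ℕ} {s : Bool} {p : ℕ × ℕ} (hp : p ∈ coprimePairs m n) :
    ex (s, p) ∈ exc (Complex.exp 1) m n := by
  unfold coprimePairs at hp
  rw [Finset.mem_filter, Finset.mem_product, Finset.mem_Icc, Finset.mem_Icc] at hp
  obtain ⟨⟨⟨u1, u2⟩, v1, v2⟩, -⟩ := hp
  obtain ⟨u, v⟩ := p
  simp only at u1 u2 v1 v2
  have hv : (v : ℂ) ≠ 0 := by
    have : v ≠ 0 := by omega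
    exact_mod_cast this
  have hu : (u : ℂ) ≠ 0 := by
    have : u ≠ 0 := by omega
    exact_mod_cast this
  have hq : (u : ℂ) / v ≠ 0 := div_ne_zero hu hv
  refine ⟨alg_ex _, ?_, ?_⟩
  · unfold ex
    split_ifs
    · exact hq
    · exact neg_ne_zero.2 hq
  · have e1 : Complex.exp ((u : ℂ) / v) ^ v = Complex.exp 1 ^ u := by
      rw [← Complex.exp_nat_mul, ← Complex.exp_nat_mul]
      congr 1
      field_simp
    unfold ex
    cases s with
    | true =>
      rw [if_pos rfl]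
      refine rel_of_eq (⟨0, by omega⟩, ⟨v, by omega⟩) (⟨u, by omega⟩, ⟨0, by omega⟩) ?_ ?_
      · intro h
        rw [Prod.mk.injEq, Fin.mk.injEq] at h
        omega
      · simp only [pow_zero, one_mul, mul_one]
        exact e1
    | false =>
      rw [if_neg (by simp)]
      refine rel_of_eq (⟨u, by omega⟩, ⟨v, by omega⟩) (⟨0, by omega⟩, ⟨0, by omega⟩) ?_ ?_
      · intro h
        rw [Prod.mk.injEq, Fin.mk.injEq] at h
        omega
      · simp only [pow_zero, mul_one]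
        rw [Complex.exp_neg, inv_pow, e1]
        exact mul_inv_cancel₀ (pow_ne_zero _ (Complex.exp_ne_zero _))

theorem pair_eq {m n : ℕ} {p q : ℕ × ℕ} (hp : p ∈ coprimePairs m n) (hq : q ∈ coprimePairs m n)
    (h : (p.1 : ℂ) / p.2 = q.1 / q.2) : p = q := by
  unfold coprimePairs at hp hq
  rw [Finset.mem_filter, Finset.mem_product, Finset.mem_Icc, Finset.mem_Icc] at hp hq
  obtain ⟨⟨⟨a1, -⟩, b1, -⟩, c1⟩ := hp
  obtain ⟨⟨⟨a2, -⟩, b2, -⟩, c2⟩ := hq
  have hv : (p.2 : ℂ) ≠ 0 := by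
    have : p.2 ≠ 0 := by omega
    exact_mod_cast this
  have hv' : (q.2 : ℂ) ≠ 0 := by
    have : q.2 ≠ 0 := by omega
    exact_mod_cast this
  rw [div_eq_div_iff hv hv'] at h
  have h1 : p.1 * q.2 = q.1 * p.2 := by exact_mod_cast h
  have d1 : p.1 ∣ q.1 := c1.dvd_of_dvd_mul_right (Dvd.intro _ h1)
  have d2 : q.1 ∣ p.1 := c2.dvd_of_dvd_mul_right (Dvd.intro _ h1.symm)
  have e1 : p.1 = q.1 := Nat.dvd_antisymm d1 d2
  rw [e1] at h1
  have e2 : q.2 = p.2 := Nat.eq_of_mul_eq_mul_left (by omega) h1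
  exact Prod.ext e1 e2.symm

theorem ex_inj {m n : ℕ} :
    Set.InjOn ex ((Finset.univ ×ˢ coprimePairs m n : Finset (Bool × ℕ × ℕ)) : Set _) := by
  rintro ⟨s, p⟩ hp ⟨s', q⟩ hq h
  rw [Finset.mem_coe, Finset.mem_product] at hp hq
  have hp' : p ∈ coprimePairs m n := hp.2
  have hq' : q ∈ coprimePairs m n := hq.2
  have pos : ∀ {r : ℕ × ℕ}, r ∈ coprimePairs m n → 0 < (r.1 : ℝ) / r.2 := by
    intro r hr
    unfold coprimePairs at hr
    rw [Finset.mem_filter, Finset.mem_product, Finset.mem_Icc, Finset.mem_Icc] at hr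
    obtain ⟨⟨⟨a1, -⟩, b1, -⟩, -⟩ := hr
    have a2 : (0 : ℝ) < r.1 := by exact_mod_cast a1
    have b2 : (0 : ℝ) < r.2 := by exact_mod_cast b1
    positivity
  have real : ∀ r : ℕ × ℕ, (r.1 : ℂ) / r.2 = (((r.1 : ℝ) / r.2 : ℝ) : ℂ) := by
    intro r
    push_cast
    rfl
  cases s <;> cases s' <;> simp only [ex, if_true, if_false, Bool.false_eq_true] at h
  · rw [neg_inj] at h
    rw [pair_eq hp' hq' h]
  · exfalso
    rw [real, real] at h
    have h1 : -((p.1 : ℝ) / p.2) = (q.1 : ℝ) / q.2 := by exact_mod_cast h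
    have := pos hp'
    have := pos hq'
    linarith
  · exfalso
    rw [real, real] at h
    have h1 : (p.1 : ℝ) / p.2 = -((q.1 : ℝ) / q.2) := by exact_mod_cast h
    have := pos hp'
    have := pos hq'
    linarith
  · rw [pair_eq hp' hq' h]

theorem transc_e : Transcendental ℚ (Complex.exp 1) :=
  transc_exp isAlgebraic_one one_ne_zero

open Classical in
/-- the bound is attained for `t = e` -/
theorem exc_e (m n : ℕ) : (exc (Complex.exp 1) m n).ncard = 2 * (coprimePairs m n).card := by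
  obtain ⟨hfin, hle⟩ := exc_bound transc_e m n
  refine le_antisymm hle ?_
  have h1 : ((Finset.univ ×ˢ coprimePairs m n : Finset (Bool × ℕ × ℕ)).image ex).card =
      2 * (coprimePairs m n).card := by
    rw [Finset.card_image_of_injOn ex_inj, Finset.card_product]
    simp
  rw [← h1, ← Set.ncard_coe_finset]
  refine Set.ncard_le_ncard ?_ hfin
  intro x hx
  rw [Finset.mem_coe, Finset.mem_image] at hx
  obtain ⟨⟨s, p⟩, hp, rfl⟩ := hx
  exact ex_mem (Finset.mem_product.1 hp).2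

end Pool.Agent.H970_Mobius
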