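import Pool.Agent.H970_Mobius.Field
import Pool.Agent.Y76.NQ.Expl

set_option autoImplicit false

/-!
# Exponentials of algebraic numbers which are algebraic over `ℚ(t)`
-/

namespace Pool.Agent.H970_Mobius

open IntermediateField Polynomial algebraAdjoinAdjoin

section field

variable {F E : Type*} [Field F] [Field E] [Algebra F E]

theorem adjoin_inv (y : E) : F⟮y⁻¹⟯ = F⟮y⟯ := by
  apply le_antisymm
  · rw [adjoin_simple_le_iff]
    exact inv_mem (mem_adjoin_simple_self F y)
  · rw [adjoin_simple_le_iff]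
    have h := inv_mem (mem_adjoin_simple_self F y⁻¹)
    rwa [inv_inv] at h

theorem dT_inv (t y : E) : dT F t y⁻¹ = dT F t y := by
  unfold dT FF
  rw [adjoin_inv]

theorem dY_inv (t y : E) : dY F t y⁻¹ = dY F t y := by
  unfold dY FF
  rw [adjoin_inv]

/-- two numbers in relation with `t` are algebraically dependent -/
theorem not_algInd {t y y' : E} {m n m' n' : ℕ} (ht : Transcendental F t)
    (hy : Transcendental F y) (h : PolyRel F m n t y) (h' : PolyRel F m' n' t y') :
    ¬ AlgebraicIndependent F ![y, y'] := by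
  intro hind
  set M := FF F t y with hM
  have i0 := (h'.deg ht).1
  have i1 : IsIntegral M y' := by
    rw [← isAlgebraic_iff_isIntegral]
    exact IsAlgebraic.tower_top_of_subalgebra_le (le_sup_left : F⟮t⟯ ≤ FF F t y)
      (isAlgebraic_iff_isIntegral.2 i0)
  have p1 : 0 < relfinrank M (M ⊔ F⟮y'⟯) := relfinrank_sup_pos M i1
  have p2 : 0 < relfinrank F⟮y⟯ M := (dT_bounds hy h).1
  have l1 : F⟮y⟯ ≤ M := le_sup_right
  have l2 : M ≤ M ⊔ F⟮y'⟯ := le_sup_left
  have p3 : 0 < relfinrank F⟮y⟯ (M ⊔ F⟮y'⟯) := by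
    rw [← relfinrank_mul_relfinrank l1 l2]
    exact Nat.mul_pos p2 p1
  have l3 : F⟮y⟯ ≤ M ⊔ F⟮y'⟯ := l1.trans l2
  rw [relfinrank_eq_finrank_of_le l3] at p3
  have hfin : Module.Finite F⟮y⟯ (extendScalars l3) := Module.finite_of_finrank_pos p3
  have hmem : y' ∈ extendScalars l3 := by
    have : F⟮y'⟯ ≤ M ⊔ F⟮y'⟯ := le_sup_right
    exact this (mem_adjoin_simple_self F y')
  have i2 : IsIntegral F⟮y⟯ (⟨y', hmem⟩ : extendScalars l3) := IsIntegral.of_finite _ _
  have i3 : IsIntegral F⟮y⟯ y' := i2.map (extendScalars l3).val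
  have j1 := hind.transcendental_adjoin (s := {0}) (i := 1) (by simp)
  have himg : ![y, y'] '' {0} = {y} := by
    rw [Set.image_singleton]
    rfl
  rw [himg] at j1
  have j2 : Transcendental (Algebra.adjoin F {y}) y' := j1
  apply j2
  rw [IsFractionRing.isAlgebraic_iff (Algebra.adjoin F {y}) F⟮y⟯ E]
  exact isAlgebraic_iff_isIntegral.2 i3

end field

/-- the field of all algebraic numbers -/
noncomputable abbrev QB : IntermediateField ℚ ℂ := algebraicClosure ℚ ℂ

instance : Algebra.IsAlgebraic ℚ QB := algebraicClosure.isAlgebraic ℚ ℂ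

theorem transc_QB {t : ℂ} (ht : Transcendental ℚ t) : Transcendental QB t := by
  intro h
  exact ht (h.restrictScalars ℚ)

theorem transc_exp {α : ℂ} (hα : IsAlgebraic ℚ α) (h0 : α ≠ 0) :
    Transcendental ℚ (Complex.exp α) := by
  have h1 : LinearIndependent ℚ (fun _ : Fin 1 => α) := by
    rw [linearIndependent_unique_iff]
    exact h0
  have h2 := Pool.Agent.Y76.NQ.algInd_exp (fun _ : Fin 1 => α) (fun _ => hα) h1
  exact h2.transcendental 0

/-- the exponents are commensurable -/
theorem comm {t : ℂ} (ht : Transcendental ℚ t) {α β : ℂ} (hα : IsAlgebraic ℚ α)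
    (hβ : IsAlgebraic ℚ β) (hα0 : α ≠ 0) (hβ0 : β ≠ 0) {m n m' n' : ℕ}
    (h : PolyRel QB m n t (Complex.exp α)) (h' : PolyRel QB m' n' t (Complex.exp β)) :
    ∃ u v : ℕ, 0 < u ∧ 0 < v ∧ ((u : ℂ) * α = v * β ∨ (u : ℂ) * α = v * (-β)) := by
  have h1 : ¬ LinearIndependent ℚ ![α, β] := by
    intro hl
    have h2 := Pool.Agent.Y76.NQ.algInd_exp ![α, β] (by
      intro i
      fin_cases i
      · exact hα
      · exact hβ) hl
    have h3 : AlgebraicIndependent ℚ ![Complex.exp α, Complex.exp β] := by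
      convert h2 using 1
      funext i
      fin_cases i <;> rfl
    have h4 : AlgebraicIndependent QB ![Complex.exp α, Complex.exp β] := h3.extendScalars QB
    exact not_algInd (transc_QB ht) (transc_QB (transc_exp hα hα0)) h h' h4
  rw [← LinearIndependent.iff_fractionRing ℤ ℚ] at h1
  rw [LinearIndependent.pair_iff] at h1
  push Not at h1
  obtain ⟨p, q, hpq, hne⟩ := h1
  simp only [zsmul_eq_mul] at hpq
  have hp0 : p ≠ 0 := by
    rintro rfl
    have hq : q ≠ 0 := hne rfl
    have h2 : (q : ℂ) * β = 0 := by simpa using hpq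
    rcases mul_eq_zero.1 h2 with h3 | h3
    · exact hq (by exact_mod_cast h3)
    · exact hβ0 h3
  have hq0 : q ≠ 0 := by
    rintro rfl
    have h2 : (p : ℂ) * α = 0 := by simpa using hpq
    rcases mul_eq_zero.1 h2 with h3 | h3
    · exact hp0 (by exact_mod_cast h3)
    · exact hα0 h3
  refine ⟨p.natAbs, q.natAbs, Int.natAbs_pos.2 hp0, Int.natAbs_pos.2 hq0, ?_⟩
  have e1 : (p : ℂ) * α = -(q * β) := by
    linear_combination hpq
  rcases Int.natAbs_eq p with hp | hp <;> rcases Int.natAbs_eq q with hq | hq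
  · right
    have a1 : ((p.natAbs : ℕ) : ℂ) = p := by
      conv_rhs => rw [hp]
      simp
    have a2 : ((q.natAbs : ℕ) : ℂ) = q := by
      conv_rhs => rw [hq]
      simp
    rw [a1, a2, e1]
    ring
  · left
    have a1 : ((p.natAbs : ℕ) : ℂ) = p := by
      conv_rhs => rw [hp]
      simp
    have a2 : ((q.natAbs : ℕ) : ℂ) = -q := by
      conv_rhs => rw [hq]
      simp
    rw [a1, a2, e1]
    ring
  · left
    have a1 : ((p.natAbs : ℕ) : ℂ) = -p := by
      conv_rhs => rw [hp]
      simp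
    have a2 : ((q.natAbs : ℕ) : ℂ) = q := by
      conv_rhs => rw [hq]
      simp
    rw [a1, a2, neg_mul, e1]
    ring
  · right
    have a1 : ((p.natAbs : ℕ) : ℂ) = -p := by
      conv_rhs => rw [hp]
      simp
    have a2 : ((q.natAbs : ℕ) : ℂ) = -q := by
      conv_rhs => rw [hq]
      simp
    rw [a1, a2, neg_mul, e1]
    ring

/-- exponents with the same quotient of degrees -/
theorem eq_or_neg {t : ℂ} (ht : Transcendental ℚ t) {α β : ℂ} (hα : IsAlgebraic ℚ α)
    (hβ : IsAlgebraic ℚ β) (hα0 : α ≠ 0) (hβ0 : β ≠ 0) {m n m' n' : ℕ}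
    (h : PolyRel QB m n t (Complex.exp α)) (h' : PolyRel QB m' n' t (Complex.exp β))
    (hd : dT QB t (Complex.exp α) * dY QB t (Complex.exp β) =
      dT QB t (Complex.exp β) * dY QB t (Complex.exp α)) : α = β ∨ α = -β := by
  obtain ⟨u, v, hu, hv, huv⟩ := comm ht hα hβ hα0 hβ0 h h'
  have tα := transc_QB (transc_exp hα hα0)
  have tβ := transc_QB (transc_exp hβ hβ0)
  have tt := transc_QB ht
  have iα := (h.deg tt).1
  have iβ := (h'.deg tt).1
  have b1 := (dT_bounds tα h).1
  have b2 := (dY_bounds tt h').1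
  have pos : 0 < dT QB t (Complex.exp α) * dY QB t (Complex.exp β) := Nat.mul_pos b1 b2
  rcases huv with e | e
  · left
    have hz : Complex.exp α ^ u = Complex.exp β ^ v := by
      rw [← Complex.exp_nat_mul, ← Complex.exp_nat_mul, e]
    have h1 := deg_ratio tα tβ iα iβ hz
    rw [mul_assoc, mul_assoc, ← hd] at h1
    have h2 : u = v := Nat.eq_of_mul_eq_mul_right pos h1
    subst h2
    exact mul_left_cancel₀ (by exact_mod_cast hu.ne') e
  · right
    have hβ' : Complex.exp (-β) = (Complex.exp β)⁻¹ := Complex.exp_neg β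
    have hz : Complex.exp α ^ u = (Complex.exp β)⁻¹ ^ v := by
      rw [← hβ', ← Complex.exp_nat_mul, ← Complex.exp_nat_mul, e]
    have tβ' : Transcendental QB (Complex.exp β)⁻¹ := by
      rw [← hβ']
      exact transc_QB (transc_exp hβ.neg (neg_ne_zero.2 hβ0))
    have h1 := deg_ratio tα tβ' iα iβ.inv hz
    rw [dT_inv, dY_inv, mul_assoc, mul_assoc, ← hd] at h1
    have h2 : u = v := Nat.eq_of_mul_eq_mul_right pos h1
    subst h2
    exact mul_left_cancel₀ (by exact_mod_cast hu.ne') e

end Pool.Agent.H970_Mobius
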