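import Mathlib

set_option autoImplicit false

/-!
# Degrees of two generators and of a common power
-/

namespace Pool.Agent.H970_Mobius

open IntermediateField Polynomial

section field

variable {F E : Type*} [Field F] [Field E] [Algebra F E]

/-- the embedding of the field of rational functions that sends `X` to `y` -/
noncomputable def emb (y : E) (hy : Transcendental F y) : RatFunc F →ₐ[F] E :=
  (F⟮y⟯.val).comp (RatFunc.algEquivOfTranscendental y hy).toAlgHom

theorem emb_X (y : E) (hy : Transcendental F y) : emb y hy RatFunc.X = y := by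
  unfold emb
  simp

/-- `[F(y) : F(y ^ u)] = u` for a transcendental `y` -/
theorem relfinrank_pow {y : E} (hy : Transcendental F y) (u : ℕ) :
    relfinrank F⟮y ^ u⟯ F⟮y⟯ = u := by
  have h1 : F⟮y⟯ = (⊤ : IntermediateField F (RatFunc F)).map (emb y hy) := by
    rw [← RatFunc.adjoin_X, IntermediateField.adjoin_map, Set.image_singleton, emb_X]
  have h2 : F⟮y ^ u⟯ = (F⟮(RatFunc.X : RatFunc F) ^ u⟯).map (emb y hy) := by
    rw [IntermediateField.adjoin_map, Set.image_singleton, map_pow, emb_X]
  rw [h1, h2, relfinrank_map_map, relfinrank_top_right]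
  have h3 : Module.finrank (F⟮(RatFunc.X : RatFunc F) ^ u⟯) (RatFunc F) = u := by
    rw [RatFunc.finrank_eq_max_natDegree]
    have h4 : (RatFunc.X : RatFunc F) ^ u = algebraMap F[X] (RatFunc F) (Polynomial.X ^ u) := by
      simp
    rw [h4, RatFunc.num_algebraMap, RatFunc.denom_algebraMap]
    simp
  exact h3

/-- the degree of a simple extension inside `E` -/
theorem relfinrank_sup (K : IntermediateField F E) {y : E} (hy : IsIntegral K y) :
    relfinrank K (K ⊔ F⟮y⟯) = (minpoly K y).natDegree := by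
  have h : K ≤ K ⊔ F⟮y⟯ := le_sup_left
  rw [relfinrank_eq_finrank_of_le h]
  have h1 : extendScalars h = K⟮y⟯ := by
    apply IntermediateField.restrictScalars_injective F
    rw [extendScalars_restrictScalars, restrictScalars_adjoin_eq_sup]
  rw [h1]
  exact adjoin.finrank hy

theorem relfinrank_sup_pos (K : IntermediateField F E) {y : E} (hy : IsIntegral K y) :
    0 < relfinrank K (K ⊔ F⟮y⟯) := by
  rw [relfinrank_sup K hy]
  exact minpoly.natDegree_pos hy

/-- the numbers `t ^ i * y ^ j` with `i ≤ m` and `j ≤ n` are linearly dependent over `F` -/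
def PolyRel (F : Type*) {E : Type*} [Field F] [Field E] [Algebra F E] (m n : ℕ) (t y : E) : Prop :=
  ¬ LinearIndependent F (fun p : Fin (m + 1) × Fin (n + 1) => t ^ (p.1 : ℕ) * y ^ (p.2 : ℕ))

theorem PolyRel.symm {m n : ℕ} {t y : E} (h : PolyRel F m n t y) : PolyRel F n m y t := by
  intro h1
  apply h
  have h2 := h1.comp (Equiv.prodComm _ _) (Equiv.prodComm (Fin (m + 1)) (Fin (n + 1))).injective
  convert h2 using 1
  funext p
  simp [mul_comm]

/-- a relation bounds the degree of `y` over `F(t)` -/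
theorem PolyRel.deg {m n : ℕ} {t y : E} (ht : Transcendental F t) (h : PolyRel F m n t y) :
    IsIntegral F⟮t⟯ y ∧ (minpoly F⟮t⟯ y).natDegree ≤ n := by
  obtain ⟨c, hc, ⟨i0, j0⟩, hne⟩ := Fintype.not_linearIndependent_iff.1 h
  let r : Fin (n + 1) → F[X] := fun j => ∑ i : Fin (m + 1), C (c (i, j)) * X ^ (i : ℕ)
  have hr : r j0 ≠ 0 := by
    intro h0
    have h1 := congrArg (fun p => coeff p (i0 : ℕ)) h0
    simp only [r, finsetSum_coeff, coeff_C_mul, coeff_X_pow, coeff_zero] at h1
    rw [Finset.sum_eq_single i0] at h1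
    · simp at h1
      exact hne h1
    · intro b _ hb
      rw [if_neg (fun h => hb (Fin.ext h.symm)), mul_zero]
    · intro hb
      exact absurd (Finset.mem_univ _) hb
  let g : Fin (n + 1) → F⟮t⟯ := fun j => aeval (AdjoinSimple.gen F t) (r j)
  have hg : g j0 ≠ 0 := by
    intro h0
    have h1 : aeval t (r j0) = 0 := by
      have h2 := congrArg (algebraMap F⟮t⟯ E) h0
      rw [map_zero] at h2
      rw [← h2]
      simp only [g]
      rw [← aeval_algebraMap_apply, AdjoinSimple.algebraMap_gen]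
    exact hr ((transcendental_iff.1 ht) _ h1)
  let q : F⟮t⟯[X] := ∑ j : Fin (n + 1), C (g j) * X ^ (j : ℕ)
  have hq0 : q ≠ 0 := by
    intro h0
    have h1 := congrArg (fun p => coeff p (j0 : ℕ)) h0
    simp only [q, finsetSum_coeff, coeff_C_mul, coeff_X_pow, coeff_zero] at h1
    rw [Finset.sum_eq_single j0] at h1
    · simp at h1
      exact hg h1
    · intro b _ hb
      rw [if_neg (fun h => hb (Fin.ext h.symm)), mul_zero]
    · intro hb
      exact absurd (Finset.mem_univ _) hb
  have hq1 : aeval y q = 0 := by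
    simp only [q, map_sum, map_mul, aeval_C, map_pow, aeval_X]
    rw [← hc]
    rw [Fintype.sum_prod_type_right]
    refine Finset.sum_congr rfl fun j _ => ?_
    have h2 : algebraMap F⟮t⟯ E (g j) = aeval t (r j) := by
      simp only [g]
      rw [← aeval_algebraMap_apply, AdjoinSimple.algebraMap_gen]
    rw [h2]
    simp only [r, map_sum, map_mul, aeval_C, map_pow, aeval_X]
    rw [Finset.sum_mul]
    refine Finset.sum_congr rfl fun i _ => ?_
    rw [Algebra.smul_def]
    ring
  have hint : IsIntegral F⟮t⟯ y := by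
    rw [← isAlgebraic_iff_isIntegral]
    exact ⟨q, hq0, hq1⟩
  refine ⟨hint, ?_⟩
  have h3 := minpoly.degree_le_of_ne_zero F⟮t⟯ y hq0 hq1
  have h4 : (minpoly F⟮t⟯ y).natDegree ≤ q.natDegree := natDegree_le_natDegree h3
  refine h4.trans ?_
  refine natDegree_sum_le_of_forall_le _ _ fun j _ => ?_
  refine (natDegree_C_mul_X_pow_le _ _).trans ?_
  have := j.2
  omega

/-- `F(t, y)` -/
noncomputable def FF (F : Type*) {E : Type*} [Field F] [Field E] [Algebra F E] (t y : E) :
    IntermediateField F E := F⟮t⟯ ⊔ F⟮y⟯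

/-- the degree of `y` over `F(t)` -/
noncomputable def dY (F : Type*) {E : Type*} [Field F] [Field E] [Algebra F E] (t y : E) : ℕ :=
  relfinrank F⟮t⟯ (FF F t y)

/-- the degree of `t` over `F(y)` -/
noncomputable def dT (F : Type*) {E : Type*} [Field F] [Field E] [Algebra F E] (t y : E) : ℕ :=
  relfinrank F⟮y⟯ (FF F t y)

theorem dT_eq (t y : E) : dT F t y = dY F y t := by
  unfold dT dY FF
  rw [sup_comm]

theorem dY_bounds {m n : ℕ} {t y : E} (ht : Transcendental F t) (h : PolyRel F m n t y) :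
    1 ≤ dY F t y ∧ dY F t y ≤ n := by
  obtain ⟨h1, h2⟩ := h.deg ht
  unfold dY FF
  rw [relfinrank_sup _ h1]
  exact ⟨minpoly.natDegree_pos h1, h2⟩

theorem dT_bounds {m n : ℕ} {t y : E} (hy : Transcendental F y) (h : PolyRel F m n t y) :
    1 ≤ dT F t y ∧ dT F t y ≤ m := by
  rw [dT_eq]
  exact dY_bounds hy h.symm

/-- **Comparison of the degrees** of two numbers with a common power. -/
theorem deg_ratio {t y y' : E} (hy : Transcendental F y) (hy' : Transcendental F y')
    (h1 : IsIntegral F⟮t⟯ y) (h1' : IsIntegral F⟮t⟯ y') {u v : ℕ} (hz : y ^ u = y' ^ v) :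
    u * dT F t y * dY F t y' = v * dT F t y' * dY F t y := by
  set M : IntermediateField F E := F⟮t⟯ ⊔ F⟮y⟯ ⊔ F⟮y'⟯ with hM
  have hM' : M = F⟮t⟯ ⊔ F⟮y'⟯ ⊔ F⟮y⟯ := by rw [hM, sup_right_comm]
  set e := relfinrank (FF F t y) M with he
  set e' := relfinrank (FF F t y') M with he'
  have i1 : IsIntegral (FF F t y) y' := by
    rw [← isAlgebraic_iff_isIntegral]
    exact IsAlgebraic.tower_top_of_subalgebra_le (le_sup_left : F⟮t⟯ ≤ FF F t y)
      (isAlgebraic_iff_isIntegral.2 h1')
  have i2 : IsIntegral (FF F t y') y := by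
    rw [← isAlgebraic_iff_isIntegral]
    exact IsAlgebraic.tower_top_of_subalgebra_le (le_sup_left : F⟮t⟯ ≤ FF F t y')
      (isAlgebraic_iff_isIntegral.2 h1)
  have he0 : 0 < e := by
    rw [he, hM]
    exact relfinrank_sup_pos (FF F t y) i1
  have he0' : 0 < e' := by
    rw [he', hM']
    exact relfinrank_sup_pos (FF F t y') i2
  have l1 : FF F t y ≤ M := le_sup_left
  have l1' : FF F t y' ≤ M := by
    rw [hM']
    exact le_sup_left
  have l2 : F⟮t⟯ ≤ FF F t y := le_sup_left
  have l2' : F⟮t⟯ ≤ FF F t y' := le_sup_left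
  have l3 : F⟮y⟯ ≤ FF F t y := le_sup_right
  have l3' : F⟮y'⟯ ≤ FF F t y' := le_sup_right
  have l4 : F⟮y ^ u⟯ ≤ F⟮y⟯ := by
    rw [adjoin_simple_le_iff]
    exact pow_mem (mem_adjoin_simple_self F y) u
  have l4' : F⟮y' ^ v⟯ ≤ F⟮y'⟯ := by
    rw [adjoin_simple_le_iff]
    exact pow_mem (mem_adjoin_simple_self F y') v
  have a1 : dY F t y * e = relfinrank F⟮t⟯ M := relfinrank_mul_relfinrank l2 l1
  have a1' : dY F t y' * e' = relfinrank F⟮t⟯ M := relfinrank_mul_relfinrank l2' l1'
  have a2 : dT F t y * e = relfinrank F⟮y⟯ M := relfinrank_mul_relfinrank l3 l1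
  have a2' : dT F t y' * e' = relfinrank F⟮y'⟯ M := relfinrank_mul_relfinrank l3' l1'
  have a3 : u * (dT F t y * e) = relfinrank F⟮y ^ u⟯ M := by
    rw [a2, ← relfinrank_mul_relfinrank l4 (l3.trans l1), relfinrank_pow hy]
  have a3' : v * (dT F t y' * e') = relfinrank F⟮y' ^ v⟯ M := by
    rw [a2', ← relfinrank_mul_relfinrank l4' (l3'.trans l1'), relfinrank_pow hy']
  have b1 : dY F t y * e = dY F t y' * e' := by rw [a1, a1']
  have b2 : u * (dT F t y * e) = v * (dT F t y' * e') := by rw [a3, a3', hz]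
  have b3 : u * dT F t y * dY F t y' * (e * e') = v * dT F t y' * dY F t y * (e * e') := by
    calc u * dT F t y * dY F t y' * (e * e') = (u * (dT F t y * e)) * (dY F t y' * e') := by ring
      _ = (v * (dT F t y' * e')) * (dY F t y * e) := by rw [b2, b1]
      _ = _ := by ring
  exact Nat.eq_of_mul_eq_mul_right (Nat.mul_pos he0 he0') b3

end field

end Pool.Agent.H970_Mobius
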